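import Pool.Agent.KTB.StmtsKA

/-!
Squad KTB, row GNR: a generic relation.
-/

set_option autoImplicit false

namespace Pool.Agent.KTB.H80

open Finset
open scoped Classical

theorem gnr : GnrStmt := by
  intro ι T _ D S
  set ker : ι → Submodule ℚ (D.R S) := fun a =>
    LinearMap.ker ((LinearMap.proj a : (ι → ℚ) →ₗ[ℚ] ℚ) ∘ₗ (D.R S).subtype) with hker
  set s : Finset (Submodule ℚ (D.R S)) := (D.N S).image ker with hs
  have htop : (⊤ : Submodule ℚ (D.R S)) ∉ s := by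
    intro h
    obtain ⟨a, ha, hk⟩ := Finset.mem_image.1 h
    obtain ⟨ρ, hρ, hρa⟩ := (Finset.mem_filter.1 ha).2
    have h1 : (⟨ρ, hρ⟩ : D.R S) ∈ ker a := by rw [hk]; exact Submodule.mem_top
    rw [hker, LinearMap.mem_ker] at h1
    exact hρa h1
  have hne := Subspace.biUnion_ne_univ_of_top_notMem htop
  obtain ⟨ρ, hρ⟩ := (Set.ne_univ_iff_exists_notMem _).1 hne
  refine ⟨ρ, ρ.2, ?_⟩
  intro a ha h0
  apply hρ
  refine Set.mem_biUnion (Finset.mem_coe.2 (Finset.mem_image_of_mem ker ha)) ?_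
  show ρ ∈ ker a
  rw [hker, LinearMap.mem_ker]
  exact h0

end Pool.Agent.KTB.H80
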