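import Pool.Agent.KTB.StmtsKB

/-!
Squad KTB, row TGM: `Btt` is the largest one of the sets of its definition.
-/

set_option autoImplicit false

namespace Pool.Agent.KTB.H80

open Finset
open scoped Classical

theorem tgm (hA : TgaStmt) (hB : TgbStmt) : TgmStmt := by
  intro ι κ r E K hR k hk t ht hne
  obtain ⟨-, ha, -⟩ := hA ι κ r E K hR
  have ht1 : r {t} = 1 := hR.non k hk t ht
  set F : Finset (Finset κ) :=
    K.powerset.filter fun C => Tgt r E K C ∧ k ∉ C ∧ Inc r E C t with hF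
  have hmem : ∀ C, C ∈ F ↔ Tgt r E K C ∧ k ∉ C ∧ Inc r E C t := by
    intro C
    rw [hF, Finset.mem_filter, Finset.mem_powerset]
    exact ⟨fun h => h.2, fun h => ⟨h.1.1, h⟩⟩
  have hFne : F.Nonempty := by
    obtain ⟨j, hj⟩ := hne
    obtain ⟨C, h1, h2, h3, -⟩ := (Finset.mem_filter.1 hj).2
    exact ⟨C, (hmem C).2 ⟨h1, h2, h3⟩⟩
  obtain ⟨C, hC, hmax⟩ := Finset.exists_max_image F Finset.card hFne
  obtain ⟨hC1, hC2, hC3⟩ := (hmem C).1 hC
  have hun : ∀ C', C' ∈ F → C ∪ C' ∈ F := by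
    intro C' hC'
    obtain ⟨h1, h2, h3⟩ := (hmem C').1 hC'
    refine (hmem _).2 ⟨hB ι κ r E K hR C C' t hC1 h1 ht1 hC3 h3, ?_, ?_⟩
    · rw [Finset.mem_union, not_or]
      exact ⟨hC2, h2⟩
    · refine ha (C.biUnion E) ((C ∪ C').biUnion E) ?_ t hC3
      exact Finset.biUnion_subset_biUnion_of_subset_left E Finset.subset_union_left
  have heq : Btt r E K k t = C := by
    apply Finset.Subset.antisymm
    · intro j hj
      obtain ⟨C', h1, h2, h3, h4⟩ := (Finset.mem_filter.1 hj).2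
      have h5 := hun C' ((hmem C').2 ⟨h1, h2, h3⟩)
      have h6 := hmax _ h5
      have h7 : C = C ∪ C' := Finset.eq_of_subset_of_card_le Finset.subset_union_left h6
      rw [h7]
      exact Finset.mem_union_right _ h4
    · intro j hj
      exact Finset.mem_filter.2 ⟨hC1.1 hj, C, hC1, hC2, hC3, hj⟩
  rw [heq]
  exact ⟨hC1, hC2, hC3⟩

end Pool.Agent.KTB.H80
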